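import Pool.Agent.V11100.BC.Asm
import Pool.Agent.V11100.BC.Sym
import Pool.Agent.V11100.BC.Hussain

/-!
# Biplanes with few open claws (towards Hall's finiteness conjecture, `λ = 2`)

The incidence graph of a biplane (a symmetric `2-(v,k,2)` design) has the `2v` points and blocks
as vertices.  Two vertices with a common neighbour have exactly two.  A claw is a vertex `x`
with three distinct neighbours `a, b, c`; it is closed if the second common neighbours of
`a, b`, of `a, c` and of `b, c` have a common neighbour (so that the claw spans a cube), and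
open otherwise.
-/

set_option autoImplicit false

namespace Pool.Agent.Results.MP_c38931_co.BiplaneClaws

open Finset Pool.Agent.V11100.BC

/-- `B 0, …, B (v-1)` are the blocks of a symmetric `2-(v,k,2)` design on the points `Fin v`:
`v` blocks with `k` points each, two distinct points lying in exactly two common blocks. -/
structure IsBiplane (v k : ℕ) (B : Fin v → Finset (Fin v)) : Prop where
  size : ∀ j, (B j).card = k
  pts : ∀ p q, p ≠ q → (univ.filter (fun j => p ∈ B j ∧ q ∈ B j)).card = 2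

/-- Auxiliary: the further properties of a biplane (proved below). -/
structure Full (v k : ℕ) (B : Fin v → Finset (Fin v)) : Prop where
  size : ∀ j, (B j).card = k
  deg : ∀ p, (univ.filter (fun j => p ∈ B j)).card = k
  pts : ∀ p q, p ≠ q → (univ.filter (fun j => p ∈ B j ∧ q ∈ B j)).card = 2
  meet : ∀ i j, i ≠ j → (B i ∩ B j).card = 2

/-- Adjacency in the incidence graph: `Sum.inl p` is the point `p`, `Sum.inr j` the block
`B j`. -/
def inc {v : ℕ} (B : Fin v → Finset (Fin v)) : Fin v ⊕ Fin v → Fin v ⊕ Fin v → Prop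
  | Sum.inl p, Sum.inr j => p ∈ B j
  | Sum.inr j, Sum.inl p => p ∈ B j
  | Sum.inl _, Sum.inl _ => False
  | Sum.inr _, Sum.inr _ => False

/-- `(x, a, b, c)` is an open claw: `a, b, c` are distinct neighbours of `x`, and there are no
vertices `u, w, z` different from `x` such that `u` is a common neighbour of `a, b`, `w` of
`a, c`, `z` of `b, c`, and `u, w, z` have a common neighbour `d`. -/
def IsOpen {v : ℕ} (B : Fin v → Finset (Fin v))
    (t : (Fin v ⊕ Fin v) × (Fin v ⊕ Fin v) × (Fin v ⊕ Fin v) × (Fin v ⊕ Fin v)) : Prop :=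
  (t.2.1 ≠ t.2.2.1 ∧ t.2.1 ≠ t.2.2.2 ∧ t.2.2.1 ≠ t.2.2.2) ∧
  (inc B t.1 t.2.1 ∧ inc B t.1 t.2.2.1 ∧ inc B t.1 t.2.2.2) ∧
  ¬ ∃ u w z d, (u ≠ t.1 ∧ inc B u t.2.1 ∧ inc B u t.2.2.1) ∧
    (w ≠ t.1 ∧ inc B w t.2.1 ∧ inc B w t.2.2.2) ∧
    (z ≠ t.1 ∧ inc B z t.2.2.1 ∧ inc B z t.2.2.2) ∧
    inc B d u ∧ inc B d w ∧ inc B d z

open Classical in
/-- The finite set of all open claws of `B`. -/
noncomputable def openClaws {v : ℕ} (B : Fin v → Finset (Fin v)) :
    Finset ((Fin v ⊕ Fin v) × (Fin v ⊕ Fin v) × (Fin v ⊕ Fin v) × (Fin v ⊕ Fin v)) :=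
  univ.filter (IsOpen B)

theorem irr {v : ℕ} (B : Fin v → Finset (Fin v)) (u : Fin v ⊕ Fin v) : ¬ inc B u u := by
  rcases u with u | u <;> simp [inc]

theorem isRect {v k : ℕ} {B : Fin v → Finset (Fin v)} (h : Full v k B) :
    Rect (Fin v ⊕ Fin v) (inc B) := by
  refine ⟨?_, ?_⟩
  · rintro (a | a) (b | b) hab <;> simp only [inc] at hab ⊢ <;> exact hab
  · rintro (x | x) (a | a) (b | b) hab hxa hxb <;> simp only [inc] at hxa hxb
    · obtain ⟨y, h1, h2, h3⟩ := two_of_card (h.meet a b (fun hh => hab (by rw [hh])))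
        (mem_inter.2 ⟨hxa, hxb⟩)
      refine ⟨Sum.inl y, fun hh => h1 (Sum.inl.inj hh), ?_, ?_, ?_⟩
      · exact (mem_inter.1 h2).1
      · exact (mem_inter.1 h2).2
      · rintro (z | z) hz1 hz2
        · rcases h3 z (mem_inter.2 ⟨hz1, hz2⟩) with rfl | rfl
          · exact Or.inl rfl
          · exact Or.inr rfl
        · exact absurd hz1 (by simp [inc])
    · obtain ⟨y, h1, h2, h3⟩ := two_of_card (h.pts a b (fun hh => hab (by rw [hh])))
        (mem_filter.2 ⟨mem_univ _, hxa, hxb⟩)
      refine ⟨Sum.inr y, fun hh => h1 (Sum.inr.inj hh), ?_, ?_, ?_⟩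
      · exact (mem_filter.1 h2).2.1
      · exact (mem_filter.1 h2).2.2
      · rintro (z | z) hz1 hz2
        · exact absurd hz1 (by simp [inc])
        · rcases h3 z (mem_filter.2 ⟨mem_univ _, hz1, hz2⟩) with rfl | rfl
          · exact Or.inl rfl
          · exact Or.inr rfl

theorem not_cl_open {v k : ℕ} {B : Fin v → Finset (Fin v)} (h : Full v k B)
    {x a b c : Fin v ⊕ Fin v} (hab : a ≠ b) (hac : a ≠ c) (hbc : b ≠ c) (xa : inc B x a)
    (xb : inc B x b) (xc : inc B x c) (hn : ¬ Cl (isRect h) x a b c) :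
    (x, a, b, c) ∈ openClaws B := by
  classical
  rw [openClaws, mem_filter]
  refine ⟨mem_univ _, ⟨hab, hac, hbc⟩, ⟨xa, xb, xc⟩, ?_⟩
  rintro ⟨u, w, z, d, ⟨u1, u2, u3⟩, ⟨w1, w2, w3⟩, ⟨z1, z2, z3⟩, d1, d2, d3⟩
  apply hn
  refine ⟨d, ?_, ?_, ?_⟩
  · rw [← oth_unique (isRect h) hab xa xb u1 u2 u3]; exact d1
  · rw [← oth_unique (isRect h) hac xa xc w1 w2 w3]; exact d2
  · rw [← oth_unique (isRect h) hbc xb xc z1 z2 z3]; exact d3

theorem count {v k : ℕ} {B : Fin v → Finset (Fin v)} (hk : 2 ≤ k) (hv : 0 < v)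
    (hs : ∀ j, (B j).card = k) (hd : ∀ p, (univ.filter (fun j => p ∈ B j)).card = k)
    (hp : ∀ p q, p ≠ q → (univ.filter (fun j => p ∈ B j ∧ q ∈ B j)).card = 2) :
    k * k = (k - 2) + 2 * v := by
  have := local_count hs hp ⟨0, hv⟩
  rw [hd] at this
  omega

theorem nbrs {v k : ℕ} {B : Fin v → Finset (Fin v)} (h : Full v k B)
    (x : Fin v ⊕ Fin v) : ∃ D : Finset (Fin v ⊕ Fin v), D.card = k ∧ ∀ d ∈ D, inc B x d := by
  classical
  rcases x with p | j
  · refine ⟨(univ.filter (fun j => p ∈ B j)).image Sum.inr, ?_, ?_⟩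
    · rw [card_image_of_injective _ Sum.inr_injective, h.deg p]
    · intro d hd
      obtain ⟨j, hj, rfl⟩ := mem_image.1 hd
      exact (mem_filter.1 hj).2
  · refine ⟨(B j).image Sum.inl, ?_, ?_⟩
    · rw [card_image_of_injective _ Sum.inl_injective, h.size j]
    · intro d hd
      obtain ⟨p, hp, rfl⟩ := mem_image.1 hd
      exact hp

theorem nbrs' {v k : ℕ} {B : Fin v → Finset (Fin v)} (h : Full v k B)
    (x : Fin v ⊕ Fin v) : ∃ D : Finset (Fin v ⊕ Fin v), D.card = k ∧ ∀ d, d ∈ D ↔ inc B x d := by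
  classical
  rcases x with p | j
  · refine ⟨(univ.filter (fun j => p ∈ B j)).image Sum.inr, ?_, ?_⟩
    · rw [card_image_of_injective _ Sum.inr_injective, h.deg p]
    · rintro (d | d) <;> simp [inc]
  · refine ⟨(B j).image Sum.inl, ?_, ?_⟩
    · rw [card_image_of_injective _ Sum.inl_injective, h.size j]
    · rintro (d | d) <;> simp [inc]

theorem common {v k : ℕ} {B : Fin v → Finset (Fin v)} (h : Full v k B)
    {x z i : Fin v ⊕ Fin v} (hxi : inc B x i) (hxz : ¬ inc B x z) (hs : x.isLeft ≠ z.isLeft) :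
    ∃ y y', y ≠ y' ∧ inc B y i ∧ inc B y z ∧ inc B y' i ∧ inc B y' z := by
  classical
  rcases x with x | x <;> rcases z with z | z <;> rcases i with i | i <;>
    simp only [inc, Sum.isLeft_inl, Sum.isLeft_inr, ne_eq, not_true_eq_false] at hxi hxz hs
  · have hne : i ≠ z := fun hh => hxz (by rw [← hh]; exact hxi)
    obtain ⟨y, y', hyy, he⟩ := card_eq_two.1 (h.meet i z hne)
    have m1 : y ∈ B i ∩ B z := by rw [he]; simp
    have m2 : y' ∈ B i ∩ B z := by rw [he]; simp
    exact ⟨Sum.inl y, Sum.inl y', fun hh => hyy (Sum.inl.inj hh), (mem_inter.1 m1).1,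
      (mem_inter.1 m1).2, (mem_inter.1 m2).1, (mem_inter.1 m2).2⟩
  · have hne : i ≠ z := fun hh => hxz (by rw [← hh]; exact hxi)
    obtain ⟨y, y', hyy, he⟩ := card_eq_two.1 (h.pts i z hne)
    have m1 : y ∈ univ.filter (fun j => i ∈ B j ∧ z ∈ B j) := by rw [he]; simp
    have m2 : y' ∈ univ.filter (fun j => i ∈ B j ∧ z ∈ B j) := by rw [he]; simp
    exact ⟨Sum.inr y, Sum.inr y', fun hh => hyy (Sum.inr.inj hh), (mem_filter.1 m1).2.1,
      (mem_filter.1 m1).2.2, (mem_filter.1 m2).2.1, (mem_filter.1 m2).2.2⟩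

theorem card_opp {v k : ℕ} {B : Fin v → Finset (Fin v)} (h : Full v k B)
    [DecidableRel (inc B)] (x : Fin v ⊕ Fin v) :
    (univ.filter (fun z : Fin v ⊕ Fin v => x.isLeft ≠ z.isLeft ∧ ¬ inc B x z)).card = v - k := by
  classical
  rcases x with p | j
  · have e : univ.filter (fun z : Fin v ⊕ Fin v => (Sum.inl p : Fin v ⊕ Fin v).isLeft ≠ z.isLeft ∧
        ¬ inc B (Sum.inl p) z) = (univ.filter (fun j => p ∈ B j))ᶜ.image Sum.inr := by
      ext z
      rcases z with z | z <;> simp [inc]
    rw [e, card_image_of_injective _ Sum.inr_injective, card_compl, h.deg p, Fintype.card_fin]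
  · have e : univ.filter (fun z : Fin v ⊕ Fin v => (Sum.inr j : Fin v ⊕ Fin v).isLeft ≠ z.isLeft ∧
        ¬ inc B (Sum.inr j) z) = (B j)ᶜ.image Sum.inl := by
      ext z
      rcases z with z | z <;> simp [inc]
    rw [e, card_image_of_injective _ Sum.inl_injective, card_compl, h.size j, Fintype.card_fin]

theorem many {v k : ℕ} {B : Fin v → Finset (Fin v)} (h : Full v k B) (h3 : ¬ 3 ∣ k) :
    2 * v * (v - k) ≤ (openClaws B).card := by
  classical
  let R := isRect h
  let S : Finset ((Fin v ⊕ Fin v) × (Fin v ⊕ Fin v)) :=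
    univ.filter (fun s => s.1.isLeft ≠ s.2.isLeft ∧ ¬ inc B s.1 s.2)
  have hS : S.card = 2 * v * (v - k) := by
    have e1 : S.card = ∑ x : Fin v ⊕ Fin v,
        (univ.filter (fun z : Fin v ⊕ Fin v => x.isLeft ≠ z.isLeft ∧ ¬ inc B x z)).card := by
      simp only [S, card_filter]
      rw [Fintype.sum_prod_type]
    rw [e1, sum_congr rfl (fun x _ => card_opp h x), sum_const, card_univ, Fintype.card_sum,
      Fintype.card_fin, smul_eq_mul]
    ring
  rw [← hS]
  have hex : ∀ s, ∃ t, s ∈ S → t ∈ openClaws B ∧ t.1 = s.1 ∧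
      s.2 = oth R t.2.1 (oth R t.1 t.2.1 t.2.2.1) (oth R t.1 t.2.1 t.2.2.2) := by
    intro s
    by_cases hs : s ∈ S
    swap
    · exact ⟨(s.1, s.1, s.1, s.1), fun h => absurd h hs⟩
    obtain ⟨hs1, hs2⟩ := (mem_filter.1 hs).2
    obtain ⟨D, hD, hD2⟩ := nbrs' h s.1
    obtain ⟨i, j, l, hij, hil, hjl, xi, xj, xl, ho, he⟩ := exists_open R (x := s.1) (z := s.2) D
      hD2 (fun i hi => common h ((hD2 i).1 hi) hs2 hs1) hs2 (by rw [hD]; exact h3)
    exact ⟨(s.1, i, j, l), fun _ => ⟨not_cl_open h hij hil hjl xi xj xl ho, rfl, he⟩⟩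
  choose g hg using hex
  refine card_le_card_of_injOn g (fun s hs => (hg s hs).1) ?_
  intro s hs s' hs' hss
  have e1 : s.1 = s'.1 := by rw [← (hg s hs).2.1, ← (hg s' hs').2.1, hss]
  have e2 : s.2 = s'.2 := by rw [(hg s hs).2.2, (hg s' hs').2.2, hss]
  exact Prod.ext e1 e2

/-- A biplane with block size `k`, `2 ≤ k < v`, and `N` open claws has `k = 6` or
`k ≤ 4 N + 3`; in particular `v ≤ (4 N + 6) ^ 2`.  If `3` does not divide `k` then even
`N ≥ 2 v (v - k)`. -/
theorem result (v k : ℕ) (B : Fin v → Finset (Fin v)) (hk : 2 ≤ k) (hkv : k < v)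
    (hB : IsBiplane v k B) :
    (k = 6 ∨ k ≤ 4 * (openClaws B).card + 3) ∧ v ≤ (4 * (openClaws B).card + 6) ^ 2 ∧
      (¬ 3 ∣ k → 2 * v * (v - k) ≤ (openClaws B).card) := by
  classical
  have hv : 0 < v := by omega
  have hdeg := deg_of hk hv hB.size hB.pts
  have hvk := count hk hv hB.size hdeg hB.pts
  have h : Full v k B := ⟨hB.size, hdeg, hB.pts, meet_of hvk hk hB.size hdeg hB.pts⟩
  have main : k = 6 ∨ k ≤ 4 * (openClaws B).card + 3 := by
    by_cases hk3 : k ≤ 3
    · right; omega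
    by_cases hc : ∀ x a b c, a ≠ b → a ≠ c → b ≠ c → inc B x a → inc B x b → inc B x c →
        Cl (isRect h) x a b c
    · -- no open claw
      let j0 : Fin v := ⟨0, hv⟩
      let e := ((B j0).equivFinOfCardEq (h.size j0)).symm
      have hlab : IsLab (inc B) k (Sum.inr j0, fun i => Sum.inl (e i).1) := by
        refine ⟨?_, ?_⟩
        · intro i j hij
          simp only at hij
          exact e.injective (Subtype.ext (Sum.inl_injective hij))
        · intro y
          constructor
          · intro hy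
            rcases y with p | i
            · exact ⟨e.symm ⟨p, hy⟩, by simp⟩
            · exact absurd hy (by simp [inc])
          · rintro ⟨i, rfl⟩
            exact (e i).2
      have hconn : ∀ f : Fin v ⊕ Fin v → ℕ, (∀ x y, inc B x y → f x ≤ f y) →
          ∀ x y, f x = f y := by
        intro f hf
        have hs : ∀ x y, inc B x y → f x = f y := fun x y hxy =>
          le_antisymm (hf x y hxy) (hf y x ((isRect h).symm _ _ hxy))
        have hp : ∀ p q : Fin v, f (Sum.inl p) = f (Sum.inl q) := by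
          intro p q
          by_cases hpq : p = q
          · rw [hpq]
          have := h.pts p q hpq
          obtain ⟨j, hj⟩ := Finset.card_pos.1 (by omega :
            0 < (univ.filter (fun j => p ∈ B j ∧ q ∈ B j)).card)
          have hj2 := (mem_filter.1 hj).2
          rw [hs (Sum.inl p) (Sum.inr j) hj2.1, ← hs (Sum.inl q) (Sum.inr j) hj2.2]
        have hall : ∀ x, f x = f (Sum.inl j0) := by
          rintro (p | j)
          · exact hp _ _
          · have := h.size j
            obtain ⟨p, hpj⟩ := Finset.card_pos.1 (by omega : 0 < (B j).card)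
            rw [← hs (Sum.inl p) (Sum.inr j) hpj]
            exact hp _ _
        intro x y
        rw [hall x, hall y]
      obtain ⟨s, hs⟩ := card_dvd (isRect h) k _ hlab hc hconn
      have hcard : Fintype.card (Fin v ⊕ Fin v) = 2 * v := by
        rw [Fintype.card_sum, Fintype.card_fin]; ring
      rw [hcard] at hs
      rcases finish (by omega) hvk hs
        (fun hev => even_square B (by omega) h.deg h.pts hev hv hvk) with h3 | h6
      · omega
      · exact Or.inl h6
    · right
      push Not at hc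
      obtain ⟨x, a, b, c, hab, hac, hbc, xa, xb, xc, ho⟩ := hc
      obtain ⟨D, hD, hD2⟩ := nbrs h x
      have hb := bound (isRect h) (irr B) hab hac hbc xa xb xc ho (openClaws B)
        (fun y p q r h1 h2 h3 h4 h5 h6 h7 => not_cl_open h h1 h2 h3 h4 h5 h6 h7)
        (((D.erase a).erase b).erase c) (by
          intro d hd
          simp only [mem_erase] at hd
          exact ⟨hD2 d hd.2.2.2, hd.2.2.1, hd.2.1, hd.1⟩)
      have g1 : D.card - 1 ≤ (D.erase a).card := Finset.pred_card_le_card_erase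
      have g2 : (D.erase a).card - 1 ≤ ((D.erase a).erase b).card :=
        Finset.pred_card_le_card_erase
      have g3 : ((D.erase a).erase b).card - 1 ≤ (((D.erase a).erase b).erase c).card :=
        Finset.pred_card_le_card_erase
      omega
  refine ⟨main, ?_, fun h3 => many h h3⟩
  have hle : k ≤ 4 * (openClaws B).card + 6 := by omega
  have hv2 : v ≤ k * k := by omega
  calc v ≤ k * k := hv2
    _ ≤ (4 * (openClaws B).card + 6) * (4 * (openClaws B).card + 6) := Nat.mul_le_mul hle hle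
    _ = (4 * (openClaws B).card + 6) ^ 2 := by ring

end Pool.Agent.Results.MP_c38931_co.BiplaneClaws
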