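import Mathlib
import Pool.Agent.V1118.SpF
import Pool.Agent.Results.MP_c38931_co.RegularDesigns
import Pool.Agent.Results.MP_c38931_co.SolvableTransitive
import Pool.Agent.Results.MP_c38931_co.ReciprocalSum

/-!
# Block sizes of symmetric designs in the sparse sequences `⌊α n ^ c⌋`, `c > 1`

Let `c > 1` be real.  For all `α > 0` outside a set of Hausdorff dimension smaller than one the
following holds for all `lam ≥ 1` and all `ε > 0`: at most `C N (log N) ^ (ε - 1)` of the numbers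
`k = ⌊α n ^ c⌋`, `n ≤ N`, are block sizes of symmetric `2-(v, k, lam)` designs having a group of
automorphisms which acts regularly on the points (any group), or a solvable group of automorphisms
which acts transitively on the points.  If `lam ≥ 2` is not a perfect square, the bound in the second
case is `C N (log N) ^ (ε - 9 / 8)`.

The starting library has these theorems for all natural numbers `k` (`RegularDesigns`,
`SolvableTransitive`, `ReciprocalSum`), which say nothing about sparse sequences of block sizes.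
-/

set_option autoImplicit false

open Pool.Agent.V1118.SpD Pool.Agent.V1118.SpF

namespace Pool.Agent.Results.MP_c38931_co.SparseBlockSizes

/-- `k` is the block size of a symmetric `2-(v, k, lam)` design with a group of automorphisms acting
regularly on the points -/
def Regular (lam k : ℕ) : Prop :=
  ∃ (v : ℕ) (B : Fin v → Finset (Fin v)) (H : Subgroup (Equiv.Perm (Fin v))),
    RegularDesigns.IsRegularSymmetricDesign v k lam B H

/-- `k` is the block size of a symmetric `2-(v, k, lam)` design with a solvable group of automorphisms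
acting transitively on the points -/
def Solvable (lam k : ℕ) : Prop :=
  ∃ (v : ℕ) (B : Fin v → Finset (Fin v)) (H : Subgroup (Equiv.Perm (Fin v))),
    SolvableTransitive.IsSolvableTransitiveDesign v k lam B H

/-- at most `C N (log N) ^ (ε - δ)` of the numbers `⌊α n ^ c⌋`, `n ≤ N`, have the property, for
every `ε > 0` -/
def Rare (α c δ : ℝ) (Q : ℕ → Prop) : Prop :=
  ∀ ε : ℝ, 0 < ε → ∃ C : ℝ, ∀ N : ℕ, 3 ≤ N →
    (along α c Q N : ℝ) ≤ C * N * (Real.log N) ^ (ε - δ)

theorem rare_of (c : ℝ) (hc : 1 < c) (δ : ℝ) (hδ : 0 < δ) (A : ℕ → Prop) (P : ℕ → ℕ → Prop)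
    (hP : ∀ lam : ℕ, A lam → ∀ ε : ℝ, 0 < ε → ∃ C : ℝ, 0 < C ∧ ∀ X : ℕ, 3 ≤ X →
      ({k : ℕ | k ≤ X ∧ P lam k}.ncard : ℝ) ≤ C * X * (Real.log X) ^ (ε - δ)) :
    ∃ E : Set ℝ, dimH E < 1 ∧ ∀ α : ℝ, 0 < α → α ∉ E → ∀ lam : ℕ, A lam →
      Rare α c δ (P lam) := by
  obtain ⟨E, hE, h⟩ := few_nat c hc P
  refine ⟨E, hE, fun α hα hαE lam hlam ε hε => ?_⟩
  obtain ⟨C, hC, hst⟩ := hP lam hlam (min ε δ) (lt_min hε hδ)
  obtain ⟨C', hC'⟩ := h α hα hαE lam (δ - min ε δ) C (by linarith [min_le_right ε δ])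
    ⟨3, fun X hX => by
      have e2 : -(δ - min ε δ) = min ε δ - δ := by ring
      rw [e2]
      exact hst X hX⟩
  refine ⟨|C'|, fun N hN => (hC' N hN).trans ?_⟩
  have hN3 : (3 : ℝ) ≤ N := by exact_mod_cast hN
  have hl : 1 ≤ Real.log N := Pool.Agent.Y854.GM.one_le_log3 hN
  have h4 : (Real.log N) ^ (-(δ - min ε δ)) ≤ (Real.log N) ^ (ε - δ) :=
    Real.rpow_le_rpow_of_exponent_le hl (by linarith [min_le_left ε δ])
  have h5 : 0 ≤ (Real.log N) ^ (-(δ - min ε δ)) := Real.rpow_nonneg (by linarith) _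
  calc C' * N * (Real.log N) ^ (-(δ - min ε δ)) ≤ |C'| * N * (Real.log N) ^ (-(δ - min ε δ)) :=
        mul_le_mul_of_nonneg_right
          (mul_le_mul_of_nonneg_right (le_abs_self C') (by linarith)) h5
    _ ≤ |C'| * N * (Real.log N) ^ (ε - δ) := mul_le_mul_of_nonneg_left h4 (by positivity)

/-- the counting theorem of the starting library for `lam` not a square -/
theorem count_nonsquare (lam : ℕ) (h : 2 ≤ lam ∧ ¬ IsSquare lam) (ε : ℝ) (hε : 0 < ε) :
    ∃ C : ℝ, 0 < C ∧ ∀ X : ℕ, 3 ≤ X →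
      ({k : ℕ | k ≤ X ∧ Solvable lam k}.ncard : ℝ) ≤ C * X * (Real.log X) ^ (ε - 9 / 8) := by
  obtain ⟨C, hC, hX⟩ := (ReciprocalSum.result lam h.1 h.2).1 ε hε
  refine ⟨C, hC, fun X hX3 => le_trans (le_of_eq ?_) (hX X hX3)⟩
  congr 2
  ext k
  constructor
  · rintro ⟨h1, v, B, H, hd⟩
    exact ⟨h1, v, B, H, ⟨hd.two_le, hd.lt, hd.size, hd.pair, hd.transitive, hd.aut, hd.solvable⟩⟩
  · rintro ⟨h1, v, B, H, hd⟩
    exact ⟨h1, v, B, H, ⟨hd.two_le, hd.lt, hd.size, hd.pair, hd.transitive, hd.aut, hd.solvable⟩⟩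

theorem result (c : ℝ) (hc : 1 < c) : ∃ E : Set ℝ, dimH E < 1 ∧ ∀ α : ℝ, 0 < α → α ∉ E →
    ∀ lam : ℕ, 1 ≤ lam → Rare α c 1 (Regular lam) ∧ Rare α c 1 (Solvable lam) ∧
      (¬ IsSquare lam → Rare α c (9 / 8) (Solvable lam)) := by
  obtain ⟨E, hE, h⟩ := comb (rare_of c hc 1 one_pos (fun lam => 1 ≤ lam) Regular
      fun lam hlam ε hε => RegularDesigns.result lam hlam ε hε)
    (comb (rare_of c hc 1 one_pos (fun lam => 1 ≤ lam) Solvable
      fun lam hlam ε hε => SolvableTransitive.result lam hlam ε hε)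
      (rare_of c hc (9 / 8) (by norm_num) (fun lam => 2 ≤ lam ∧ ¬ IsSquare lam) Solvable
        count_nonsquare))
  refine ⟨E, hE, fun α hα hαE lam hlam =>
    ⟨(h α hα hαE).1 lam hlam, (h α hα hαE).2.1 lam hlam, fun hsq => (h α hα hαE).2.2 lam ⟨?_, hsq⟩⟩⟩
  by_contra hlt
  exact hsq ⟨1, by omega⟩

end Pool.Agent.Results.MP_c38931_co.SparseBlockSizes
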