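import Mathlib
import Pool.Agent.V11209.TD.Prime
import Pool.Agent.Y346.CH.Diag
import Pool.Agent.TH905.PC.Dsg

set_option autoImplicit false

/-!
# Tactical decompositions of symmetric designs with almost all block sizes

A tactical decomposition of a symmetric design is a partition of the points into classes together
with a partition of the blocks into classes such that the number of points of each class in a block
depends only on the class of the block, and the number of blocks of each class that contain a point
depends only on the class of the point.  The orbits of a group of automorphisms are an example, but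
no group is needed: the stable partition obtained by colour refinement from any colouring of the
points and blocks is another one, so that every design has many tactical decompositions.

Let `lam ≥ 2`.  There is a function `y` which tends to infinity such that all `k` outside a set of
natural density zero have the following property.  Let a tactical decomposition of a symmetric
`2-(v, k, lam)` design be given, such that no prime factor `> y k` of `k - lam` divides the size of a
class of points or blocks.  Then the number of the point classes (which is also the number of the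
block classes) is odd.  If moreover the sizes of the point classes have no prime factor `> y k` at
all, then this number is `1` modulo `4` and the product of these sizes is a perfect square; the same
holds for the block classes.

The starting file `PermutationCharacters` is about the orbits of groups whose order has only prime
factors from a fixed set.

Proof.  The matrix of the intersection numbers, extended by a row and a column, gives a similarity
`B diag(|L_j|, -lam) Bᵀ = n diag(|P_i|, -lam)` of integral quadratic forms, `n = k - lam`.  At a prime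
`p` which divides `n` exactly once and neither `lam` nor any of the sizes this forces `c + 1 = 2 t` for
the number `c` of classes and `(-1)^(t+1) lam ∏ |P_i|` to be a square modulo `p`.  Almost all `n` have
prime divisors `p` of this kind with any given values of the quadratic characters; for the partition
into single points and blocks one gets that `lam` is a square.
-/

open Filter Topology

namespace Pool.Agent.Results.MP_c38931_co.TacticalDecompositions

/-- The blocks `B i` (`i : Fin v`) form a symmetric `2-(v, k, lam)` design on the points `Fin v`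
with `2 ≤ k < v`. -/
structure IsSymmetricDesign (v k lam : ℕ) (B : Fin v → Finset (Fin v)) : Prop where
  two_le : 2 ≤ k
  lt : k < v
  size : ∀ i, (B i).card = k
  pair : ∀ x y : Fin v, x ≠ y →
    (Finset.univ.filter (fun i => x ∈ B i ∧ y ∈ B i)).card = lam

/-- The classes `{x | f x = a}` of points and `{i | g i = b}` of (indices of) blocks form a tactical
decomposition. -/
structure Tactical {v : ℕ} (B : Fin v → Finset (Fin v)) {c m : ℕ} (f : Fin v → Fin c)
    (g : Fin v → Fin m) : Prop where
  /-- the point classes are not empty -/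
  points_nonempty : Function.Surjective f
  /-- the block classes are not empty -/
  blocks_nonempty : Function.Surjective g
  /-- two blocks of the same class contain the same number of points of each class -/
  blocks : ∀ i j : Fin v, g i = g j → ∀ a : Fin c,
    {x : Fin v | x ∈ B i ∧ f x = a}.ncard = {x : Fin v | x ∈ B j ∧ f x = a}.ncard
  /-- two points of the same class are contained in the same number of blocks of each class -/
  points : ∀ x z : Fin v, f x = f z → ∀ b : Fin m,
    {i : Fin v | x ∈ B i ∧ g i = b}.ncard = {i : Fin v | z ∈ B i ∧ g i = b}.ncard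

/-- the property of the block size `k`, for given `lam`, for the bound `y` for the prime factors -/
def Good (lam y k : ℕ) : Prop :=
  ∀ (v : ℕ) (B : Fin v → Finset (Fin v)) (c m : ℕ) (f : Fin v → Fin c) (g : Fin v → Fin m),
    IsSymmetricDesign v k lam B → Tactical B f g →
      (∀ a, ∀ q : ℕ, q.Prime → q ∣ k - lam → q ∣ {x | f x = a}.ncard → q ≤ y) →
      (∀ b, ∀ q : ℕ, q.Prime → q ∣ k - lam → q ∣ {i | g i = b}.ncard → q ≤ y) →
        m = c ∧ c % 2 = 1 ∧
        ((∀ a, ∀ q : ℕ, q.Prime → q ∣ {x | f x = a}.ncard → q ≤ y) →
          c % 4 = 1 ∧ IsSquare (∏ a, {x | f x = a}.ncard)) ∧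
        ((∀ b, ∀ q : ℕ, q.Prime → q ∣ {i | g i = b}.ncard → q ≤ y) →
          c % 4 = 1 ∧ IsSquare (∏ b, {i | g i = b}.ncard))

theorem square_cancel {l Q : ℕ} (hl : l ≠ 0) (h1 : IsSquare l) (h2 : IsSquare (l * Q)) :
    IsSquare Q := by
  obtain ⟨a, ha⟩ := h1
  obtain ⟨b, hb⟩ := h2
  have ha0 : a ≠ 0 := by rintro rfl; exact hl (by rw [ha])
  have hab : a ∣ b := by
    have h5 : a ^ 2 ∣ b ^ 2 := ⟨Q, by rw [pow_two b, ← hb, ha]; ring⟩
    exact (Nat.pow_dvd_pow_iff (by norm_num)).1 h5
  obtain ⟨c, rfl⟩ := hab
  refine ⟨c, ?_⟩
  have h6 : (a * a) * Q = (a * a) * (c * c) := by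
    calc (a * a) * Q = l * Q := by rw [← ha]
      _ = a * c * (a * c) := hb
      _ = _ := by ring
  exact Nat.eq_of_mul_eq_mul_left (Nat.pos_of_ne_zero (mul_ne_zero ha0 ha0)) h6

open Pool.Agent.TH905.PC Pool.Agent.V11209.TD Pool.Agent.H634R3.PPC in
theorem good_of {lam M y k : ℕ} (hlam : 1 ≤ lam) (hM : ∀ q : ℕ, q.Prime → q ≤ y → q ∣ M)
    (hlaM : lam ∣ M) (hn : ArOK M (k - lam)) : Good lam y k := by
  classical
  intro v B c m f g hB ht hP hL
  have hv : 2 ≤ v := by
    have h1 := hB.two_le
    have h2 := hB.lt
    omega
  have hne : Nonempty (Fin v) := ⟨⟨0, by omega⟩⟩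
  have D := des_of hv hlam hB.lt hB.size hB.pair
  have hla0 : lam ≠ 0 := by omega
  have hTD : TD (fun (x : Fin v) (i : Fin v) => x ∈ B i) f g := by
    refine ⟨ht.points_nonempty, ht.blocks_nonempty, fun l m h i => ?_, fun x z h j => ?_⟩
    · rw [← ncard_cnt, ← ncard_cnt]
      exact ht.blocks l m h i
    · rw [← ncard_cnt, ← ncard_cnt]
      exact ht.points x z h j
  have hsq : IsSquare lam := by
    have hid : TD (fun (x : Fin v) (i : Fin v) => x ∈ B i) (id : Fin v → Fin v)
        (id : Fin v → Fin v) := by
      refine ⟨Function.surjective_id, Function.surjective_id, fun l m h i => ?_, fun x z h j => ?_⟩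
      · have : l = m := h
        rw [this]
      · have : x = z := h
        rw [this]
    have h1 : ∀ i, cs (id : Fin v → Fin v) i = 1 := by
      intro i
      unfold cs
      simp [Finset.filter_eq']
    have h2 : ∀ i, ∀ q : ℕ, q.Prime → q ∣ cs (id : Fin v → Fin v) i → q ∣ M := by
      intro i q hq h
      rw [h1 i] at h
      exact absurd (Nat.dvd_one.1 h) hq.ne_one
    have h3 := (hid.main D hlaM hla0 h2 (fun j q hq _ h => h2 j q hq h) hn).2
    rw [Finset.prod_congr rfl (fun i _ => h1 i), Finset.prod_const_one, mul_one] at h3
    exact h3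
  have hmk := hTD.card_eq D hla0
  simp only [ncard_cs] at hP hL ⊢
  have hP' : ∀ i, ∀ q : ℕ, q.Prime → q ∣ k - lam → q ∣ cs f i → q ∣ M :=
    fun i q hq h1 h2 => hM q hq (hP i q hq h1 h2)
  have hL' : ∀ j, ∀ q : ℕ, q.Prime → q ∣ k - lam → q ∣ cs g j → q ∣ M :=
    fun j q hq h1 h2 => hM q hq (hL j q hq h1 h2)
  refine ⟨hmk, hTD.odd D hlaM hla0 hP' hL' hn, fun h => ?_, fun h => ?_⟩
  · have h1 := hTD.main D hlaM hla0 (fun i q hq h2 => hM q hq (h i q hq h2)) hL' hn
    exact ⟨h1.1, square_cancel hla0 hsq h1.2⟩
  · have h1 := hTD.dual.main (des_dual D) hlaM hla0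
      (fun i q hq h2 => hM q hq (h i q hq h2)) hP' hn
    exact ⟨by rw [← hmk]; exact h1.1, square_cancel hla0 hsq h1.2⟩

/-- For every `lam ≥ 2` there is a function `y` which tends to infinity such that the set of all `k`
without the property `Good lam (y k) k` has natural density zero. -/
theorem result (lam : ℕ) (hlam' : 2 ≤ lam) : ∃ y : ℕ → ℕ, Monotone y ∧ Tendsto y atTop atTop ∧
    Tendsto (fun X : ℕ => (({k : ℕ | k ≤ X ∧ ¬ Good lam (y k) k}.ncard : ℕ) : ℝ) / X)
      atTop (𝓝 0) := by
  have hlam : 1 ≤ lam := by omega
  obtain ⟨y, h1, h2, h3⟩ := Pool.Agent.Y346.CH.diagonal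
    (fun y k => lam ≤ k ∧ (1 ≤ k - lam ∧
      ¬ ∃ j, y ≤ j ∧ Pool.Agent.TH905.PC.ArOK (j.factorial * lam) (k - lam)))
    (fun k l n hkl h => ⟨h.1, h.2.1, fun ⟨j, hj, h2⟩ => h.2.2 ⟨j, hkl.trans hj, h2⟩⟩)
    (fun j => Pool.Agent.TH905.PC.Negl.mono
      (fun k hk => ⟨hk.1, hk.2.1, fun h => hk.2.2 ⟨j, le_rfl, h⟩⟩)
      ((Pool.Agent.TH905.PC.ar_negl (j.factorial * lam)
        (mul_ne_zero (Nat.factorial_ne_zero j) (by omega))).shift lam))
  refine ⟨y, h1, h2, ?_⟩
  refine squeeze_zero (fun X => by positivity) (fun X => ?_) h3
  refine div_le_div_of_nonneg_right ?_ (Nat.cast_nonneg X)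
  rw [Nat.cast_le]
  apply Set.ncard_le_ncard _ ((Set.finite_Iic X).subset fun n hn => hn.1)
  rintro k ⟨hk, hg⟩
  have hlk : lam < k := by
    by_contra h0
    apply hg
    intro v B c m f g hB
    have hv : 2 ≤ v := by
      have h1 := hB.two_le
      have h2 := hB.lt
      omega
    obtain ⟨hlk, -, -⟩ := Pool.Agent.H951R4.OD.design_facts hv hlam hB.lt hB.size hB.pair
    omega
  refine ⟨hk, hlk.le, by omega, ?_⟩
  rintro ⟨j, hj, h4⟩
  exact hg (good_of hlam (fun q hq hqy =>
    (Nat.dvd_factorial hq.pos (hqy.trans hj)).mul_right lam) (dvd_mul_left _ _) h4)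

end Pool.Agent.Results.MP_c38931_co.TacticalDecompositions
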