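import Mathlib
import Pool.Agent.V11285.W8
import Pool.Agent.Results.MP_c38931_co.RegularDesigns
import Pool.Agent.Results.MP_c38931_co.SolvableTransitive
import Pool.Agent.Results.MP_c38931_co.ReciprocalSum

/-!
# Windows without block sizes of symmetric designs

Let `v_n ≥ 1` tend to infinity, `0 ≤ L_n ≤ v_n`, and `∑ L_n (log v_n) ^ (-δ) < ∞`.

1. If `δ < 9 / 8`, then for almost all real `α > 0` the following holds for all `lam ≥ 2` which are
not perfect squares: for all large `n` NO integer `k` with `|k - α v_n| ≤ L_n` is the block size of a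
symmetric `2-(v, k, lam)` design having a solvable point-transitive group of automorphisms.  For
example, this is so if `v_n = θ ^ n`, `θ > 1`, and all `L_n = L` are equal, whatever `L` is.

2. If `δ < 1`, the same holds for all `lam ≥ 1` and for the block sizes of symmetric designs having a
solvable point-transitive group of automorphisms, or any group of automorphisms which is regular on
the points.

The starting results `ReciprocalSum`, `SolvableTransitive`, `RegularDesigns` bound the number of these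
block sizes up to `X` and give no place without them.
-/

set_option autoImplicit false

open Filter Topology MeasureTheory

namespace Pool.Agent.Results.MP_c38931_co.WindowsWithoutDesigns

/-- `k` is the block size of a symmetric `2-(v, k, lam)` design with a group of automorphisms acting
regularly on the points -/
def Regular (lam k : ℕ) : Prop :=
  ∃ (v : ℕ) (B : Fin v → Finset (Fin v)) (H : Subgroup (Equiv.Perm (Fin v))),
    RegularDesigns.IsRegularSymmetricDesign v k lam B H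

/-- `k` is the block size of a symmetric `2-(v, k, lam)` design with a solvable group of automorphisms
acting transitively on the points -/
def Solvable (lam k : ℕ) : Prop :=
  ∃ (v : ℕ) (B : Fin v → Finset (Fin v)) (H : Subgroup (Equiv.Perm (Fin v))),
    SolvableTransitive.IsSolvableTransitiveDesign v k lam B H

/-- `v_n ≥ 1` tends to infinity, `L_n ≥ 0`, `L_n ≤ v_n` for large `n`, and the sum of the
`L_n (log v_n) ^ (-δ)` converges -/
def Thin (v L : ℕ → ℝ) (δ : ℝ) : Prop :=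
  (∀ n, 1 ≤ v n) ∧ Tendsto v atTop atTop ∧ (∀ n, 0 ≤ L n) ∧ (∀ᶠ n in atTop, L n ≤ v n) ∧
    Summable fun n => L n * Real.log (v n) ^ (-δ)

/-- for all large `n` no integer `k` with `|k - α v_n| ≤ L_n` has the property -/
def Avoids (v L : ℕ → ℝ) (α : ℝ) (P : ℕ → Prop) : Prop :=
  ∃ n₀ : ℕ, ∀ n : ℕ, n₀ ≤ n → ∀ k : ℕ, |(k : ℝ) - α * v n| ≤ L n → ¬ P k

theorem not_small {lam : ℕ} : ¬ Solvable lam 0 ∧ ¬ Regular lam 0 := by
  constructor
  · rintro ⟨v, B, H, h⟩
    exact absurd h.two_le (by norm_num)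
  · rintro ⟨v, B, H, h⟩
    exact absurd h.two_le (by norm_num)

/-- one family of sets -/
theorem avoid_of (v L : ℕ → ℝ) (δ η : ℝ) (hδ : 0 < δ) (hδη : δ < η) (hT : Thin v L δ)
    (A : ℕ → Prop) (P : ℕ → ℕ → Prop) (h0 : ∀ lam, ¬ P lam 0)
    (hP : ∀ lam : ℕ, A lam → ∀ ε : ℝ, 0 < ε → ∃ C : ℝ, 0 < C ∧ ∀ X : ℕ, 3 ≤ X →
      ({k : ℕ | k ≤ X ∧ P lam k}.ncard : ℝ) ≤ C * X * (Real.log X) ^ (ε - η)) :
    ∀ᵐ α : ℝ, 0 < α → ∀ lam : ℕ, A lam → Avoids v L α (P lam) := by
  obtain ⟨h1, h2, h3, h4, h5⟩ := hT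
  have key : ∀ lam : {lam : ℕ // A lam}, ∀ᵐ α : ℝ, 0 < α → Avoids v L α (P lam) := by
    rintro ⟨lam, hlam⟩
    obtain ⟨C, hC, hX⟩ := hP lam hlam (η - δ) (by linarith)
    have hb := Pool.Agent.V11285.W8.ae_thinZ (fun d => 0 < d ∧ P lam d.natAbs) (δ := δ) (C := C) hδ
      (fun X hX3 => by
        have e : ((η - δ) - η) = -δ := by ring
        have g := hX X hX3
        rw [e] at g
        refine le_trans ?_ g
        have hfin : {k : ℕ | k ≤ X ∧ P lam k}.Finite := (Set.finite_Iic X).subset fun n hn => hn.1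
        have hle : {d : ℤ | d.natAbs ≤ X ∧ (0 < d ∧ P lam d.natAbs)}.ncard ≤
            {k : ℕ | k ≤ X ∧ P lam k}.ncard := by
          refine Set.ncard_le_ncard_of_injOn (fun d : ℤ => d.natAbs) ?_ ?_ hfin
          · intro d hd
            exact ⟨hd.1, hd.2.2⟩
          · intro a ha b hb hab
            have h1 : 0 < a := ha.2.1
            have h2 : 0 < b := hb.2.1
            have h3 : a.natAbs = b.natAbs := hab
            omega
        exact_mod_cast hle) h1 h2 h3 h4 h5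
    filter_upwards [hb] with α hα hα0
    obtain ⟨n₀, hn₀⟩ := hα hα0
    refine ⟨n₀, fun n hn k hk hPk => ?_⟩
    rcases Nat.eq_zero_or_pos k with rfl | hk0
    · exact h0 lam hPk
    · refine hn₀ n hn (k : ℤ) (by omega) ?_ ⟨by omega, ?_⟩
      · have : |(((k : ℤ) : ℝ))| = (k : ℝ) := by
          rw [Int.cast_natCast, abs_of_nonneg (Nat.cast_nonneg k)]
        rw [this]
        exact hk
      · simpa using hPk
  have hall := ae_all_iff.2 key
  filter_upwards [hall] with α hα hα0 lam hlam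
  exact hα ⟨lam, hlam⟩ hα0

/-- the counting theorem of the starting library for `lam` not a square -/
theorem count_nonsquare (lam : ℕ) (h : 2 ≤ lam ∧ ¬ IsSquare lam) (ε : ℝ) (hε : 0 < ε) :
    ∃ C : ℝ, 0 < C ∧ ∀ X : ℕ, 3 ≤ X →
      ({k : ℕ | k ≤ X ∧ Solvable lam k}.ncard : ℝ) ≤ C * X * (Real.log X) ^ (ε - 9 / 8) := by
  obtain ⟨C, hC, hX⟩ := (ReciprocalSum.result lam h.1 h.2).1 ε hε
  refine ⟨C, hC, fun X hX3 => le_trans (le_of_eq ?_) (hX X hX3)⟩
  congr 2
  ext k
  constructor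
  · rintro ⟨h1, v, B, H, hd⟩
    exact ⟨h1, v, B, H, ⟨hd.two_le, hd.lt, hd.size, hd.pair, hd.transitive, hd.aut, hd.solvable⟩⟩
  · rintro ⟨h1, v, B, H, hd⟩
    exact ⟨h1, v, B, H, ⟨hd.two_le, hd.lt, hd.size, hd.pair, hd.transitive, hd.aut, hd.solvable⟩⟩

/-- exponential sequences and windows of constant length -/
theorem thin_exp {θ : ℝ} (hθ : 1 < θ) {L : ℝ} (hL : 0 ≤ L) :
    Thin (fun n => θ ^ n) (fun _ => L) (17 / 16) := by
  have hl : 0 < Real.log θ := Real.log_pos hθ
  refine ⟨fun n => one_le_pow₀ hθ.le, tendsto_pow_atTop_atTop_of_one_lt hθ, fun _ => hL,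
    (tendsto_pow_atTop_atTop_of_one_lt hθ).eventually_ge_atTop L, ?_⟩
  have e : ∀ n : ℕ, L * Real.log (θ ^ n) ^ (-(17 / 16) : ℝ) =
      (L * Real.log θ ^ (-(17 / 16) : ℝ)) * (n : ℝ) ^ (-(17 / 16) : ℝ) := by
    intro n
    rw [Real.log_pow, Real.mul_rpow (Nat.cast_nonneg n) hl.le]
    ring
  simp_rw [e]
  exact (Real.summable_nat_rpow.2 (by norm_num)).mul_left _

theorem result :
    (∀ (v L : ℕ → ℝ) (δ : ℝ), 0 < δ → δ < 9 / 8 → Thin v L δ → ∀ᵐ α : ℝ, 0 < α →
      ∀ lam : ℕ, 2 ≤ lam → ¬ IsSquare lam → Avoids v L α (Solvable lam)) ∧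
    (∀ θ : ℝ, 1 < θ → ∀ᵐ α : ℝ, 0 < α → ∀ (L lam : ℕ), 2 ≤ lam → ¬ IsSquare lam →
      Avoids (fun n => θ ^ n) (fun _ => L) α (Solvable lam)) ∧
    (∀ (v L : ℕ → ℝ) (δ : ℝ), 0 < δ → δ < 1 → Thin v L δ → ∀ᵐ α : ℝ, 0 < α →
      ∀ lam : ℕ, 1 ≤ lam → Avoids v L α (Solvable lam) ∧ Avoids v L α (Regular lam)) := by
  have hA : ∀ (v L : ℕ → ℝ) (δ : ℝ), 0 < δ → δ < 9 / 8 → Thin v L δ → ∀ᵐ α : ℝ, 0 < α →
      ∀ lam : ℕ, 2 ≤ lam → ¬ IsSquare lam → Avoids v L α (Solvable lam) := by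
    intro v L δ hδ hδ1 hT
    filter_upwards [avoid_of v L δ (9 / 8) hδ hδ1 hT (fun lam => 2 ≤ lam ∧ ¬ IsSquare lam) Solvable
      (fun lam => not_small.1) count_nonsquare] with α hα hα0 lam h1 h2
    exact hα hα0 lam ⟨h1, h2⟩
  refine ⟨hA, fun θ hθ => ?_, fun v L δ hδ hδ1 hT => ?_⟩
  · have hall := ae_all_iff.2 (fun L : ℕ => hA (fun n => θ ^ n) (fun _ => (L : ℝ)) (17 / 16)
      (by norm_num) (by norm_num) (thin_exp hθ (Nat.cast_nonneg L)))
    filter_upwards [hall] with α hα hα0 L lam h1 h2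
    exact hα L hα0 lam h1 h2
  · filter_upwards [avoid_of v L δ 1 hδ hδ1 hT (fun lam => 1 ≤ lam) Solvable
      (fun lam => not_small.1) (fun lam hlam ε hε => SolvableTransitive.result lam hlam ε hε),
      avoid_of v L δ 1 hδ hδ1 hT (fun lam => 1 ≤ lam) Regular
      (fun lam => not_small.2) (fun lam hlam ε hε => RegularDesigns.result lam hlam ε hε)]
      with α h1 h2 hα0 lam hlam
    exact ⟨h1 hα0 lam hlam, h2 hα0 lam hlam⟩

end Pool.Agent.Results.MP_c38931_co.WindowsWithoutDesigns
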